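import Pool.Agent.X229.HessE

namespace Pool.Agent.Results.MP_51245c_nt.ExactlyTwentySeven

open Polynomial Pool.Agent.X229.Hess Pool.Agent.X229.HessB Pool.Agent.X229.HessE

/-- The matrix `H(m,n)` of the problem. -/
def H (m n : ℤ) : Matrix (Fin 3) (Fin 3) ℤ :=
  !![1, 1, m + n; 2, 1, 2 * m + n; 0, 3, 3 * n - 1]

/-- upper Hessenberg: the entry in the lower left corner vanishes -/
def IsHess (M : Matrix (Fin 3) (Fin 3) ℤ) : Prop := M 2 0 = 0

/-- Hessenberg complexity `a₂₁² |a₃₂|` -/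
def sig (M : Matrix (Fin 3) (Fin 3) ℤ) : ℤ := (M 1 0) ^ 2 * |M 2 1|

/-- integer conjugacy: `M' = X M X⁻¹` with `X ∈ GL(3,ℤ)` -/
def IntConj (M M' : Matrix (Fin 3) (Fin 3) ℤ) : Prop :=
  ∃ X : GL (Fin 3) ℤ, M' = (X : Matrix (Fin 3) (Fin 3) ℤ) * M * ((X⁻¹ : GL (Fin 3) ℤ) : Matrix (Fin 3) (Fin 3) ℤ)

/-- ς-reduced: the least Hessenberg complexity among all Hessenberg matrices integer conjugate
to `M` -/
def IsReduced (M : Matrix (Fin 3) (Fin 3) ℤ) : Prop :=
  ∀ M' : Matrix (Fin 3) (Fin 3) ℤ, IsHess M' → IntConj M M' → sig M ≤ sig M'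

theorem charpoly_H (m n : ℤ) :
    (H m n).charpoly = X ^ 3 - C (3 * n + 1) * X ^ 2 + C (3 * n - 3 - 6 * m) * X - 1 := by
  unfold Matrix.charpoly Matrix.charmatrix H
  rw [Matrix.det_fin_three]
  simp
  ring

theorem det_eq (m n x y z : ℤ) :
    18 * (Kry (H m n) ![x, y, z]).det =
    NN (3 * n + 1) (3 * n - 3 - 6 * m) (6 * x - 2 * z - 3 * y + z * (4 - 3 * n + 6 * m))
      (3 * y + z * (3 * n - 1)) z := by
  unfold Kry
  rw [Matrix.det_transpose, Matrix.det_fin_three]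
  simp [H, dotProduct, Fin.sum_univ_three, NN]
  ring

theorem sig_H (m n : ℤ) : sig (H m n) = 12 := by
  simp [sig, H]

theorem not_reduced {m n : ℤ} (X Y : Matrix (Fin 3) (Fin 3) ℤ) (h1 : X * Y = 1) (h2 : Y * X = 1)
    (h3 : (X * H m n * Y) 2 0 = 0)
    (h4 : ((X * H m n * Y) 1 0) ^ 2 * |(X * H m n * Y) 2 1| < 12) : ¬ IsReduced (H m n) := by
  intro h
  have h5 := h (X * H m n * Y) h3 ⟨⟨X, Y, h1, h2⟩, rfl⟩
  rw [sig_H] at h5
  unfold sig at h5
  linarith

theorem forward {m n : ℤ} (h1 : IsNRS (H m n)) (h2 : ¬ IsReduced (H m n)) :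
    exc true (3 * n + 1) (3 * n - 3 - 6 * m) = true ∨ exc false (3 * n - 3 - 6 * m) (3 * n + 1) = true := by
  unfold IsReduced at h2
  push Not at h2
  obtain ⟨M', hH, ⟨X, hX⟩, hlt⟩ := h2
  rw [sig_H] at hlt
  obtain ⟨Y, hY⟩ : ∃ Y : Matrix (Fin 3) (Fin 3) ℤ, Y = ((X⁻¹ : GL (Fin 3) ℤ) : Matrix (Fin 3) (Fin 3) ℤ) :=
    ⟨_, rfl⟩
  obtain ⟨Z, hZ⟩ : ∃ Z : Matrix (Fin 3) (Fin 3) ℤ, Z = (X : Matrix (Fin 3) (Fin 3) ℤ) := ⟨_, rfl⟩
  have hZY : Z * Y = 1 := by rw [hZ, hY]; exact X.mul_inv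
  have hYZ : Y * Z = 1 := by rw [hZ, hY]; exact X.inv_mul
  rw [← hY, ← hZ] at hX
  set v := Y.mulVec ![1, 0, 0] with hv
  have hZv : Z.mulVec v = ![1, 0, 0] := by
    rw [hv, Matrix.mulVec_mulVec, hZY, Matrix.one_mulVec]
  have hv0 : v ≠ 0 := by
    intro h0
    rw [h0, Matrix.mulVec_zero] at hZv
    have := congrFun hZv 0
    simp at this
  have hconj : M' * Z = Z * H m n := by
    rw [hX, mul_assoc, hYZ, mul_one]
  have hK := Kry_conj (H m n) M' Z hconj v
  rw [hZv] at hK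
  have hdet := congrArg Matrix.det hK
  rw [Matrix.det_mul, det_Kry_e1 M' hH] at hdet
  have hZu : Z.det.natAbs = 1 := by
    have h3 := congrArg Matrix.det hZY
    rw [Matrix.det_mul, Matrix.det_one] at h3
    exact Int.isUnit_iff_natAbs_eq.mp (IsUnit.of_mul_eq_one _ h3)
  have hsig : (sig M').natAbs = (Kry (H m n) v).det.natAbs := by
    have h3 := congrArg Int.natAbs hdet
    rw [Int.natAbs_mul Z.det, hZu, one_mul] at h3
    rw [← h3]
    unfold sig
    rw [Int.natAbs_mul, Int.natAbs_mul, Int.natAbs_abs]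
  have hne := det_ne_zero h1.1 v hv0
  have hsig0 : 0 ≤ sig M' := by unfold sig; positivity
  have hveq : v = ![v 0, v 1, v 2] := by
    ext i; fin_cases i <;> rfl
  rw [hveq] at hsig hne
  have hdet2 := det_eq m n (v 0) (v 1) (v 2)
  generalize (Kry (H m n) ![v 0, v 1, v 2]).det = d at *
  generalize v 0 = x at *
  generalize v 1 = y at *
  generalize v 2 = z at *
  have hd : d.natAbs ≤ 11 := by omega
  obtain ⟨N, hN⟩ : ∃ N, N = NN (3 * n + 1) (3 * n - 3 - 6 * m)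
      (6 * x - 2 * z - 3 * y + z * (4 - 3 * n + 6 * m)) (3 * y + z * (3 * n - 1)) z := ⟨_, rfl⟩
  have hN' := hN
  rw [← hN] at hdet2
  have hN0 : N ≠ 0 := by omega
  have hN1 : N.natAbs < 216 := by omega
  have hN2 : N.natAbs ≤ 198 := by omega
  have hD := DD_pos_of_nrs (charpoly_H m n) h1
  have hne2 := ne_of_nrs (charpoly_H m n) h1
  obtain ⟨p, hp⟩ : ∃ p, p = 6 * x - 2 * z - 3 * y + z * (4 - 3 * n + 6 * m) := ⟨_, rfl⟩
  obtain ⟨q, hq⟩ : ∃ q, q = 3 * y + z * (3 * n - 1) := ⟨_, rfl⟩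
  rw [← hp, ← hq] at hN
  have hp2 : p = 6 * x - 3 * y + 2 * z - 3 * (z * n) + 6 * (z * m) := by rw [hp]; ring
  have hq2 : q = 3 * y - z + 3 * (z * n) := by rw [hq]; ring
  rcases lt_or_gt_of_ne hne2 with h3 | h3
  · right
    have hc : Cnd false p z q := by
      refine ⟨by omega, by omega, Or.inr ⟨rfl, by omega⟩⟩
    have hN3 : NN (3 * n - 3 - 6 * m) (3 * n + 1) p z q = N := by rw [NN_swap, ← hN]
    refine core2 (e := false) (p := p) (q := z) (r := q) ⟨by omega, Or.inr ⟨rfl, by omega, by omega⟩⟩ h3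
      ?_ hc ?_ ?_ ?_
    · rw [DD_swap]; exact hD
    · rw [hN3]; exact hN0
    · rw [hN3]; exact hN1
    · rw [hN3]; exact hN2
  · left
    have hc : Cnd true p q z := by
      refine ⟨by omega, by omega, Or.inl ⟨rfl, by omega⟩⟩
    refine core2 (e := true) (p := p) (q := q) (r := z) ⟨by omega, Or.inl ⟨rfl, by omega, by omega⟩⟩ h3
      hD hc ?_ ?_ ?_
    · rw [← hN]; exact hN0
    · rw [← hN]; exact hN1
    · rw [← hN]; exact hN2

/-- the 27 pairs -/
def pairs : List (ℤ × ℤ) :=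
  [(0, 1), (1, 2), (0, 2), (2, 3), (1, 3), (0, 3), (2, 4), (1, 4), (3, 5), (1, 5), (2, 8), (16, 27), (10, 27), (-1, 0), (-2, -1), (-1, 1), (-3, -2), (-2, 0), (-3, -1), (-2, 1), (-4, -2), (-2, 2), (-5, -3), (-6, -3), (-8, -4), (-9, 5), (-21, -7)]

theorem conv {m n A B : ℤ} (h1 : 3 * n + 1 = A) (h2 : 3 * n - 3 - 6 * m = B) :
    n = (A - 1) / 3 ∧ m = (A - B - 4) / 6 := by omega

theorem forward' {m n : ℤ} (h1 : IsNRS (H m n)) (h2 : ¬ IsReduced (H m n)) : (m, n) ∈ pairs := by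
  rcases forward h1 h2 with h | h
  · unfold exc at h
    rw [if_pos rfl, List.contains_iff_mem] at h
    have key : ∀ x ∈ excT, ((x.1 - x.2 - 4) / 6, (x.1 - 1) / 3) ∈ pairs := by decide +kernel
    have h3 := key _ h
    obtain ⟨hn, hm⟩ := conv (m := m) (n := n) rfl rfl
    simp only at h3
    rw [← hn, ← hm] at h3
    exact h3
  · unfold exc at h
    rw [if_neg (by decide), List.contains_iff_mem] at h
    have key : ∀ x ∈ excF, ((x.2 - x.1 - 4) / 6, (x.2 - 1) / 3) ∈ pairs := by decide +kernel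
    have h3 := key _ h
    obtain ⟨hn, hm⟩ := conv (m := m) (n := n) rfl rfl
    simp only at h3
    rw [← hn, ← hm] at h3
    exact h3

theorem backward {m n : ℤ} (h : (m, n) ∈ pairs) : IsNRS (H m n) ∧ ¬ IsReduced (H m n) := by
  unfold pairs at h
  simp only [List.mem_cons, Prod.mk.injEq, List.not_mem_nil, or_false] at h
  rcases h with ⟨rfl, rfl⟩ | ⟨rfl, rfl⟩ | ⟨rfl, rfl⟩ | ⟨rfl, rfl⟩ | ⟨rfl, rfl⟩ | ⟨rfl, rfl⟩ | ⟨rfl, rfl⟩ | ⟨rfl, rfl⟩ | ⟨rfl, rfl⟩ | ⟨rfl, rfl⟩ | ⟨rfl, rfl⟩ | ⟨rfl, rfl⟩ | ⟨rfl, rfl⟩ | ⟨rfl, rfl⟩ | ⟨rfl, rfl⟩ | ⟨rfl, rfl⟩ | ⟨rfl, rfl⟩ | ⟨rfl, rfl⟩ | ⟨rfl, rfl⟩ | ⟨rfl, rfl⟩ | ⟨rfl, rfl⟩ | ⟨rfl, rfl⟩ | ⟨rfl, rfl⟩ | ⟨rfl, rfl⟩ | ⟨rfl, rfl⟩ | ⟨rfl, rfl⟩ | ⟨rfl, rfl⟩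
  · exact ⟨nrs_of (charpoly_H _ _) (by decide) (by decide), not_reduced
      (!![0, -1, 0; -1, 0, 0; 3, 0, -1])
      (!![0, -1, 0; -1, 0, 0; 0, -3, -1]) (by decide +kernel) (by decide +kernel) (by decide +kernel) (by decide +kernel)⟩
  · exact ⟨nrs_of (charpoly_H _ _) (by decide) (by decide), not_reduced
      (!![0, 0, 1; -1, 1, 0; -4, 3, 0])
      (!![0, 3, -1; 0, 4, -1; 1, 0, 0]) (by decide +kernel) (by decide +kernel) (by decide +kernel) (by decide +kernel)⟩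
  · exact ⟨nrs_of (charpoly_H _ _) (by decide) (by decide), not_reduced
      (!![0, -1, 0; -1, 0, 0; 3, 0, -1])
      (!![0, -1, 0; -1, 0, 0; 0, -3, -1]) (by decide +kernel) (by decide +kernel) (by decide +kernel) (by decide +kernel)⟩
  · exact ⟨nrs_of (charpoly_H _ _) (by decide) (by decide), not_reduced
      (!![0, 0, 1; 3, -2, 0; -7, 5, 0])
      (!![0, 5, 2; 0, 7, 3; 1, 0, 0]) (by decide +kernel) (by decide +kernel) (by decide +kernel) (by decide +kernel)⟩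
  · exact ⟨nrs_of (charpoly_H _ _) (by decide) (by decide), not_reduced
      (!![0, 0, 1; -1, 1, 0; -5, 4, 0])
      (!![0, 4, -1; 0, 5, -1; 1, 0, 0]) (by decide +kernel) (by decide +kernel) (by decide +kernel) (by decide +kernel)⟩
  · exact ⟨nrs_of (charpoly_H _ _) (by decide) (by decide), not_reduced
      (!![0, -1, 0; -1, 0, 0; 3, 0, -1])
      (!![0, -1, 0; -1, 0, 0; 0, -3, -1]) (by decide +kernel) (by decide +kernel) (by decide +kernel) (by decide +kernel)⟩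
  · exact ⟨nrs_of (charpoly_H _ _) (by decide) (by decide), not_reduced
      (!![0, 0, 1; -1, 1, 0; -4, 3, 0])
      (!![0, 3, -1; 0, 4, -1; 1, 0, 0]) (by decide +kernel) (by decide +kernel) (by decide +kernel) (by decide +kernel)⟩
  · exact ⟨nrs_of (charpoly_H _ _) (by decide) (by decide), not_reduced
      (!![0, 1, 0; -2, 0, 1; -5, -1, 3])
      (!![1, -3, 1; 1, 0, 0; 2, -5, 2]) (by decide +kernel) (by decide +kernel) (by decide +kernel) (by decide +kernel)⟩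
  · exact ⟨nrs_of (charpoly_H _ _) (by decide) (by decide), not_reduced
      (!![0, 0, 1; -4, 3, 0; -11, 8, 0])
      (!![0, 8, -3; 0, 11, -4; 1, 0, 0]) (by decide +kernel) (by decide +kernel) (by decide +kernel) (by decide +kernel)⟩
  · exact ⟨nrs_of (charpoly_H _ _) (by decide) (by decide), not_reduced
      (!![0, 0, 1; -8, 3, 2; 29, -11, -7])
      (!![1, -11, -3; 2, -29, -8; 1, 0, 0]) (by decide +kernel) (by decide +kernel) (by decide +kernel) (by decide +kernel)⟩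
  · exact ⟨nrs_of (charpoly_H _ _) (by decide) (by decide), not_reduced
      (!![0, 0, 1; -8, 3, 2; 21, -8, -5])
      (!![1, -8, -3; 2, -21, -8; 1, 0, 0]) (by decide +kernel) (by decide +kernel) (by decide +kernel) (by decide +kernel)⟩
  · exact ⟨nrs_of (charpoly_H _ _) (by decide) (by decide), not_reduced
      (!![0, 0, 1; -73, 41, 9; -203, 114, 25])
      (!![-1, 114, -41; -2, 203, -73; 1, 0, 0]) (by decide +kernel) (by decide +kernel) (by decide +kernel) (by decide +kernel)⟩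
  · exact ⟨nrs_of (charpoly_H _ _) (by decide) (by decide), not_reduced
      (!![0, 0, 1; -111, 50, 22; 313, -141, -62])
      (!![2, -141, -50; 4, -313, -111; 1, 0, 0]) (by decide +kernel) (by decide +kernel) (by decide +kernel) (by decide +kernel)⟩
  · exact ⟨nrs_of (charpoly_H _ _) (by decide) (by decide), not_reduced
      (!![0, -1, 0; -1, 0, 0; 3, 0, -1])
      (!![0, -1, 0; -1, 0, 0; 0, -3, -1]) (by decide +kernel) (by decide +kernel) (by decide +kernel) (by decide +kernel)⟩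
  · exact ⟨nrs_of (charpoly_H _ _) (by decide) (by decide), not_reduced
      (!![0, 0, 1; -2, 1, 0; 5, -3, 0])
      (!![0, -3, -1; 0, -5, -2; 1, 0, 0]) (by decide +kernel) (by decide +kernel) (by decide +kernel) (by decide +kernel)⟩
  · exact ⟨nrs_of (charpoly_H _ _) (by decide) (by decide), not_reduced
      (!![0, -1, 0; -1, 0, 0; 3, 0, -1])
      (!![0, -1, 0; -1, 0, 0; 0, -3, -1]) (by decide +kernel) (by decide +kernel) (by decide +kernel) (by decide +kernel)⟩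
  · exact ⟨nrs_of (charpoly_H _ _) (by decide) (by decide), not_reduced
      (!![0, -1, 0; 1, -1, 0; 3, -3, 1])
      (!![-1, 1, 0; -1, 0, 0; 0, -3, 1]) (by decide +kernel) (by decide +kernel) (by decide +kernel) (by decide +kernel)⟩
  · exact ⟨nrs_of (charpoly_H _ _) (by decide) (by decide), not_reduced
      (!![0, 0, 1; -1, 0, 0; 2, -1, 0])
      (!![0, -1, 0; 0, -2, -1; 1, 0, 0]) (by decide +kernel) (by decide +kernel) (by decide +kernel) (by decide +kernel)⟩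
  · exact ⟨nrs_of (charpoly_H _ _) (by decide) (by decide), not_reduced
      (!![0, 0, 1; -1, 0, 1; 3, -1, -2])
      (!![1, -1, 0; 1, -3, -1; 1, 0, 0]) (by decide +kernel) (by decide +kernel) (by decide +kernel) (by decide +kernel)⟩
  · exact ⟨nrs_of (charpoly_H _ _) (by decide) (by decide), not_reduced
      (!![0, 0, 1; -1, 0, 0; 3, -1, 0])
      (!![0, -1, 0; 0, -3, -1; 1, 0, 0]) (by decide +kernel) (by decide +kernel) (by decide +kernel) (by decide +kernel)⟩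
  · exact ⟨nrs_of (charpoly_H _ _) (by decide) (by decide), not_reduced
      (!![0, 0, 1; -1, 0, 1; 2, -1, 0])
      (!![1, -1, 0; 2, -2, -1; 1, 0, 0]) (by decide +kernel) (by decide +kernel) (by decide +kernel) (by decide +kernel)⟩
  · exact ⟨nrs_of (charpoly_H _ _) (by decide) (by decide), not_reduced
      (!![0, 0, 1; 0, -1, 0; 1, 0, 0])
      (!![0, 0, 1; 0, -1, 0; 1, 0, 0]) (by decide +kernel) (by decide +kernel) (by decide +kernel) (by decide +kernel)⟩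
  · exact ⟨nrs_of (charpoly_H _ _) (by decide) (by decide), not_reduced
      (!![0, 0, 1; 0, -1, 2; 1, -1, 1])
      (!![1, -1, 1; 2, -1, 0; 1, 0, 0]) (by decide +kernel) (by decide +kernel) (by decide +kernel) (by decide +kernel)⟩
  · exact ⟨nrs_of (charpoly_H _ _) (by decide) (by decide), not_reduced
      (!![0, 0, 1; 1, -1, 1; 3, -2, 1])
      (!![1, -2, 1; 2, -3, 1; 1, 0, 0]) (by decide +kernel) (by decide +kernel) (by decide +kernel) (by decide +kernel)⟩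
  · exact ⟨nrs_of (charpoly_H _ _) (by decide) (by decide), not_reduced
      (!![0, 0, 1; 0, -1, 2; 1, -1, 1])
      (!![1, -1, 1; 2, -1, 0; 1, 0, 0]) (by decide +kernel) (by decide +kernel) (by decide +kernel) (by decide +kernel)⟩
  · exact ⟨nrs_of (charpoly_H _ _) (by decide) (by decide), not_reduced
      (!![0, 0, 1; 0, -1, -2; 1, 1, 3])
      (!![-1, 1, 1; -2, -1, 0; 1, 0, 0]) (by decide +kernel) (by decide +kernel) (by decide +kernel) (by decide +kernel)⟩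
  · exact ⟨nrs_of (charpoly_H _ _) (by decide) (by decide), not_reduced
      (!![0, 0, 1; 0, -1, 4; 1, -2, 6])
      (!![2, -2, 1; 4, -1, 0; 1, 0, 0]) (by decide +kernel) (by decide +kernel) (by decide +kernel) (by decide +kernel)⟩

/-- There are exactly 27 pairs `(m,n)` such that `H(m,n)` is NRS and not ς-reduced. -/
theorem result :
    {x : ℤ × ℤ | IsNRS (H x.1 x.2) ∧ ¬ IsReduced (H x.1 x.2)} =
      {(0, 1), (1, 2), (0, 2), (2, 3), (1, 3), (0, 3), (2, 4), (1, 4), (3, 5), (1, 5), (2, 8), (16, 27), (10, 27), (-1, 0), (-2, -1), (-1, 1), (-3, -2), (-2, 0), (-3, -1), (-2, 1), (-4, -2), (-2, 2), (-5, -3), (-6, -3), (-8, -4), (-9, 5), (-21, -7)} ∧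
    {x : ℤ × ℤ | IsNRS (H x.1 x.2) ∧ ¬ IsReduced (H x.1 x.2)}.ncard = 27 := by
  have key : {x : ℤ × ℤ | IsNRS (H x.1 x.2) ∧ ¬ IsReduced (H x.1 x.2)} = (pairs.toFinset : Set (ℤ × ℤ)) := by
    ext ⟨m, n⟩
    simp only [Set.mem_ofPred_eq, List.coe_toFinset]
    constructor
    · rintro ⟨h1, h2⟩
      exact forward' h1 h2
    · intro h
      exact backward h
  refine ⟨?_, ?_⟩
  · rw [key]
    unfold pairs
    simp
  · rw [key, Set.ncard_coe_finset]
    decide +kernel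

end Pool.Agent.Results.MP_51245c_nt.ExactlyTwentySeven
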